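import Pool.Agent.MP_09973c_nt.H58.SpecA

/-!
Only logarithmically many levels are exceptional.
-/

set_option autoImplicit false

namespace Pool.Agent.MP_09973c_nt.H21

open Finset Pool.Agent.MP_09973c_nt.H58

/-- A set with proportionally growing gaps is logarithmically small. -/
theorem sparse (Δ : Finset ℕ) (N c r : ℕ) (hN : ∀ d ∈ Δ, d ≤ N)
    (h : ∀ d ∈ Δ, ∀ d' ∈ Δ, d < d' → d ≤ c + r * (d' - d)) :
    Δ.card ≤ 2 * c + 1 + (Nat.log 2 N + 1) * (4 * r + 1) := by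
  rw [← card_filter_add_card_filter_not (s := Δ) (fun d => d < 2 * c + 1)]
  refine add_le_add ?_ ?_
  · refine (card_le_card (t := range (2 * c + 1)) fun d hd => ?_).trans (card_range _).le
    exact mem_range.2 (mem_filter.1 hd).2
  · have key : ∀ d ∈ Δ, ∀ d' ∈ Δ, 2 * c + 1 ≤ d → d < d' → Nat.log 2 d = Nat.log 2 d' →
        2 * r * d / 2 ^ Nat.log 2 d = 2 * r * d' / 2 ^ Nat.log 2 d' → False := by
      intro d hd d' hd' h1 h2 h3 h4
      rw [← h3] at h4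
      have h5 : 2 ^ Nat.log 2 d ≤ d := Nat.pow_log_le_self 2 (by omega)
      have h6 := Nat.div_mul_le_self (2 * r * d) (2 ^ Nat.log 2 d)
      have h7 := Nat.lt_div_mul_add (a := 2 * r * d') (b := 2 ^ Nat.log 2 d) (by positivity)
      have h8 := h d hd d' hd' h2
      rw [← h4] at h7
      obtain ⟨s, rfl⟩ := Nat.exists_eq_add_of_le h2.le
      rw [Nat.add_sub_cancel_left] at h8
      have h9 : 2 * r * (d + s) = 2 * r * d + 2 * (r * s) := by ring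
      omega
    rw [← card_range (Nat.log 2 N + 1), ← card_range (4 * r + 1), ← card_product]
    refine card_le_card_of_injOn (fun d => (Nat.log 2 d, 2 * r * d / 2 ^ Nat.log 2 d))
      (fun d hd => ?_) fun d hd d' hd' he => ?_
    · have hd' := mem_filter.1 (mem_coe.1 hd)
      refine mem_coe.2 (mem_product.2 ⟨mem_range.2 (Nat.lt_succ_of_le
        (Nat.log_mono_right (b := 2) (hN d hd'.1))), mem_range.2 ?_⟩)
      have h1 := Nat.lt_pow_succ_log_self (b := 2) (by norm_num) d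
      rw [Nat.div_lt_iff_lt_mul (by positivity)]
      rw [pow_succ] at h1
      have h2 : 0 < 2 ^ Nat.log 2 d := by positivity
      nlinarith
    · have h1 := mem_filter.1 (mem_coe.1 hd)
      have h2 := mem_filter.1 (mem_coe.1 hd')
      rw [Prod.mk.injEq] at he
      rcases lt_trichotomy d d' with h3 | h3 | h3
      · exact (key d h1.1 d' h2.1 (not_lt.1 h1.2) h3 he.1 he.2).elim
      · exact h3
      · exact (key d' h2.1 d h1.1 (not_lt.1 h2.2) h3 he.1.symm he.2.symm).elim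

theorem pow_close {F : Type} [NormedField F] {u η : F} (h : ‖η‖ = 1) (h1 : ‖u - η‖ ≤ 1) (m : ℕ) :
    ‖u ^ m - η ^ m‖ ≤ 4 ^ m * ‖u - η‖ := by
  have hu : ‖u‖ ≤ 2 := by
    have := norm_add_le (u - η) η
    rw [sub_add_cancel] at this
    linarith
  induction m with
  | zero => simp
  | succ m ih =>
    have e : u ^ (m + 1) - η ^ (m + 1) = u * (u ^ m - η ^ m) + η ^ m * (u - η) := by ring
    rw [e]
    refine (norm_add_le _ _).trans ?_
    rw [norm_mul, norm_mul, norm_pow, h, one_pow, pow_succ]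
    have h2 : (1 : ℝ) ≤ 4 ^ m := one_le_pow₀ (by norm_num)
    have h3 := mul_le_mul hu ih (norm_nonneg _) (by norm_num)
    nlinarith [norm_nonneg (u - η)]

theorem pow_iter {A : Type} [Monoid A] {x : A} {P Q : ℕ} (h : x ^ Q = x ^ P) (k : ℕ) :
    x ^ Q ^ k = x ^ P ^ k := by
  induction k with
  | zero => simp
  | succ k ih => rw [pow_succ, pow_mul, ih, ← pow_mul, mul_comm, pow_mul, h, ← pow_mul, pow_succ']

/-- Two good approximations of a fixed number by related roots of unity are far apart. -/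
theorem gap {p q : ℕ} (hp : 2 ≤ p) (hpq : p < q) (hc : p.Coprime q) {lam : Qb} (h0 : lam ≠ 0)
    (h1 : lam ≠ 1) (C : ℝ) (hC : 0 ≤ C) : ∃ C₁ C₂ : ℝ, 0 ≤ C₁ ∧
    ∀ (F : Type) [NormedField F], GoodF F → ∀ ψ : Qb →+* F, LiP ψ →
    ∀ (n i s : ℕ) (η η' : F) (y y' t : ℝ), 0 < s → i ≤ n → η ^ q ^ i = 1 → ‖η'‖ = 1 →
      η' ^ q ^ s = η ^ p ^ s → ‖ψ lam - η‖ * Real.exp y ≤ C → ‖ψ lam - η'‖ * Real.exp y' ≤ C →
      C₁ * (n + 2) ≤ y → C₁ * (n + 2) ≤ y' → t ≤ y → t ≤ y' → t ≤ C₂ * (q : ℝ) ^ s := by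
  obtain ⟨M, hM, hM'⟩ : ∃ M : ℕ, 0 < M ∧ ((∃ m : ℕ, 0 < m ∧ lam ^ m = 1) → lam ^ M = 1) := by
    by_cases h : ∃ m : ℕ, 0 < m ∧ lam ^ m = 1
    · obtain ⟨m, h1, h2⟩ := h
      exact ⟨m, h1, fun _ => h2⟩
    · exact ⟨1, one_pos, fun h' => absurd h' h⟩
  obtain ⟨d, hd, H, hH, hS⟩ := exists_Sz lam
  have hI := index_Fix_ne_zero (Set.finite_singleton lam)
  obtain ⟨W, hW⟩ : ∃ W : ℝ, W = (M : ℝ) ^ 3 * (q : ℝ) ^ 3 * (C + 1) := ⟨_, rfl⟩
  obtain ⟨V, hV⟩ : ∃ V : ℝ, V = (2 * (d * H)) ^ (Fix ℚ {lam}).index := ⟨_, rfl⟩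
  have hq0 : 0 < q := by omega
  have hM1 : (1 : ℝ) ≤ (M : ℝ) ^ 3 := one_le_pow₀ (by exact_mod_cast hM)
  have hq1 : (1 : ℝ) ≤ q := by exact_mod_cast hq0
  have hq3 : (1 : ℝ) ≤ (q : ℝ) ^ 3 := one_le_pow₀ hq1
  have hd1 : (1 : ℝ) ≤ d := by exact_mod_cast hd
  have hdH : (1 : ℝ) ≤ d * H := one_le_mul_of_one_le_of_one_le hd1 hH
  have hV0 : 0 ≤ V := by rw [hV]; positivity
  have hMq : (1 : ℝ) ≤ (M : ℝ) ^ 3 * (q : ℝ) ^ 3 := one_le_mul_of_one_le_of_one_le hM1 hq3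
  have hWC : C + 1 ≤ W := by rw [hW]; nlinarith
  have hWq : (q : ℝ) ^ 3 ≤ W := by
    rw [hW]
    have : (q : ℝ) ^ 3 ≤ (M : ℝ) ^ 3 * (q : ℝ) ^ 3 := by nlinarith
    nlinarith
  have hWM : (M : ℝ) ^ 3 * C ≤ W := by
    rw [hW]
    have : (M : ℝ) ^ 3 ≤ (M : ℝ) ^ 3 * (q : ℝ) ^ 3 := by nlinarith
    nlinarith
  have hW1 : 1 ≤ W := by linarith
  refine ⟨W, 2 * C + 4 * V, by linarith, ?_⟩
  intro F _ hF ψ hψ n i s η η' y y' t hs hi e1 e2 e3 a1 a2 b1 b2 t1 t2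
  have hη : ‖η‖ = 1 := norm_root (pow_pos hq0 i) e1
  have hn : (0 : ℝ) ≤ n := Nat.cast_nonneg n
  have hexp : ∀ z : ℝ, W * (n + 2) ≤ z → W ^ (n + 1) < Real.exp z := fun z hz => by
    have h2 : W < Real.exp W := by linarith [Real.add_one_le_exp W]
    have h3 : W ^ (n + 1) < Real.exp W ^ (n + 1) := pow_lt_pow_left₀ h2 (by linarith) (by omega)
    rw [← Real.exp_nat_mul] at h3
    refine h3.trans_le (Real.exp_le_exp.2 ?_)
    push_cast
    nlinarith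
  have hWn : W ≤ W ^ (n + 1) := le_self_pow₀ hW1 (by omega)
  have small : ∀ (ξ : F) (z : ℝ), ‖ψ lam - ξ‖ * Real.exp z ≤ C → W * (n + 2) ≤ z → t ≤ z →
      ‖ψ lam - ξ‖ ≤ 1 ∧ ‖ψ lam - ξ‖ * Real.exp t ≤ C := fun ξ z h2 h3 h4 => by
    refine ⟨?_, (mul_le_mul_of_nonneg_left (Real.exp_le_exp.2 h4) (norm_nonneg _)).trans h2⟩
    have := hexp z h3
    by_contra hh
    nlinarith [Real.exp_pos z]
  have hlt : p ^ s < q ^ s := Nat.pow_lt_pow_left hpq hs.ne'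
  by_cases hl : lam ^ q ^ s = lam ^ p ^ s
  · exfalso
    have h2 : lam ^ M = 1 := hM' ⟨q ^ s - p ^ s, by omega, by
      rw [pow_sub₀ _ h0 hlt.le, hl, mul_inv_cancel₀ (pow_ne_zero _ h0)]⟩
    have h3 : ψ lam = η := by
      by_contra hne
      have h4 := sep' hF (M := M * q ^ i) (by positivity) (ζ := ψ lam) (η := η)
        (by rw [pow_mul, ← map_pow ψ, h2, map_one, one_pow])
        (by rw [mul_comm, pow_mul, e1, one_pow]) hne
      have h5 := hexp y b1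
      have h6 : ((q : ℝ) ^ i) ^ 3 ≤ W ^ n := by
        rw [← pow_mul, mul_comm, pow_mul]
        exact (pow_le_pow_left₀ (by positivity) hWq i).trans (pow_le_pow_right₀ hW1 hi)
      push_cast at h4
      rw [div_le_iff₀ (by positivity), mul_pow] at h4
      have h7 : Real.exp y ≤ C * ((M : ℝ) ^ 3 * ((q : ℝ) ^ i) ^ 3) := by
        calc Real.exp y ≤ ‖ψ lam - η‖ * ((M : ℝ) ^ 3 * ((q : ℝ) ^ i) ^ 3) * Real.exp y :=
            le_mul_of_one_le_left (Real.exp_pos y).le h4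
          _ = ‖ψ lam - η‖ * Real.exp y * ((M : ℝ) ^ 3 * ((q : ℝ) ^ i) ^ 3) := by ring
          _ ≤ _ := mul_le_mul_of_nonneg_right a1 (by positivity)
      have h8 : (M : ℝ) ^ 3 * C * ((q : ℝ) ^ i) ^ 3 ≤ W * W ^ n :=
        mul_le_mul hWM h6 (by positivity) (by linarith)
      rw [pow_succ'] at h5
      linarith
    have h4 : lam ^ q ^ i = 1 := ψ.injective (by rw [map_pow, h3, e1, map_one])
    have h5 : lam ^ (p ^ s) ^ i = 1 := by
      rw [← pow_iter hl i, ← pow_mul q, show s * i = i + (s - 1) * i by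
        obtain ⟨s, rfl⟩ := Nat.exists_eq_succ_of_ne_zero hs.ne'
        simp [Nat.succ_mul, add_comm], pow_add, pow_mul, h4, one_pow]
    exact h1 (eq_one_of_coprime ((hc.pow_left s).pow i i) h5 h4)
  have hQ : 0 < q ^ s := by positivity
  have hHQ : 1 ≤ H ^ q ^ s := one_le_pow₀ hH
  have h2 := hψ (lam ^ q ^ s - lam ^ p ^ s) (d ^ q ^ s) (H ^ q ^ s + H ^ q ^ s) (Fix ℚ {lam}) hI
    (fun g hg => by rw [map_sub, map_pow, map_pow, mem_Fix.1 hg lam rfl])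
    ((hS.pow _).sub ((hS.pow _).mono (pow_dvd_pow d hlt.le) (pow_le_pow_right₀ hH hlt.le)))
    (sub_ne_zero.2 hl) (by positivity) (by linarith)
  have h3 : (((d ^ q ^ s : ℕ) : ℝ) * (H ^ q ^ s + H ^ q ^ s)) ^ (Fix ℚ {lam}).index ≤
      V ^ q ^ s := by
    rw [hV, ← pow_mul, mul_comm (Fix ℚ {lam}).index, pow_mul]
    refine pow_le_pow_left₀ (by positivity) ?_ _
    have : (2 : ℝ) ≤ 2 ^ q ^ s := le_self_pow₀ (by norm_num) hQ.ne'
    rw [mul_pow, mul_pow]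
    push_cast
    have h4 : (0 : ℝ) < (d : ℝ) ^ q ^ s * H ^ q ^ s := by positivity
    nlinarith
  obtain ⟨s1, s2⟩ := small η y a1 b1 t1
  obtain ⟨s3, s4⟩ := small η' y' a2 b2 t2
  have h4 : ‖ψ (lam ^ q ^ s - lam ^ p ^ s)‖ ≤
      4 ^ q ^ s * ‖ψ lam - η'‖ + 4 ^ q ^ s * ‖ψ lam - η‖ := by
    have e : ψ (lam ^ q ^ s - lam ^ p ^ s) =
        (ψ lam ^ q ^ s - η' ^ q ^ s) - (ψ lam ^ p ^ s - η ^ p ^ s) := by
      rw [map_sub, map_pow, map_pow, e3]; ring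
    rw [e]
    refine (norm_sub_le _ _).trans (add_le_add (pow_close e2 s3 _) ((pow_close hη s1 _).trans ?_))
    exact mul_le_mul_of_nonneg_right (pow_le_pow_right₀ (by norm_num) hlt.le) (norm_nonneg _)
  have h5 : 1 ≤ V ^ q ^ s * ‖ψ (lam ^ q ^ s - lam ^ p ^ s)‖ := by
    rw [inv_le_iff_one_le_mul₀' (by positivity)] at h2
    exact h2.trans (mul_le_mul_of_nonneg_right h3 (norm_nonneg _))
  have h6 : Real.exp t ≤ 2 * C * (4 * V) ^ q ^ s := by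
    have hVQ : 0 ≤ V ^ q ^ s := by positivity
    have h7 : ‖ψ (lam ^ q ^ s - lam ^ p ^ s)‖ * Real.exp t ≤ 4 ^ q ^ s * (2 * C) := by
      refine (mul_le_mul_of_nonneg_right h4 (Real.exp_pos t).le).trans ?_
      have : (0 : ℝ) ≤ 4 ^ q ^ s := by positivity
      nlinarith
    calc Real.exp t ≤ V ^ q ^ s * ‖ψ (lam ^ q ^ s - lam ^ p ^ s)‖ * Real.exp t :=
        le_mul_of_one_le_left (Real.exp_pos t).le h5
      _ ≤ V ^ q ^ s * (4 ^ q ^ s * (2 * C)) := by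
        rw [mul_assoc]; exact mul_le_mul_of_nonneg_left h7 hVQ
      _ = _ := by rw [mul_pow]; ring
  have h7 : 2 * C * (4 * V) ^ q ^ s ≤ Real.exp (2 * C + (q ^ s : ℕ) * (4 * V)) := by
    rw [Real.exp_add, Real.exp_nat_mul]
    exact mul_le_mul (by linarith [Real.add_one_le_exp (2 * C)])
      (pow_le_pow_left₀ (by positivity) (by linarith [Real.add_one_le_exp (4 * V)]) _)
      (by positivity) (Real.exp_pos _).le
  have h8 := Real.exp_le_exp.1 (h6.trans h7)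
  have h9 : (1 : ℝ) ≤ (q : ℝ) ^ s := one_le_pow₀ hq1
  push_cast at h8
  nlinarith

/-- An exceptional level gives a rotation. -/
theorem rot {p q : ℕ} (hp : 0 < p) {a b : Qb} (D : Dat p q a) (D' : Dat p q b) {l : ℕ}
    (h : ¬ HL D D' (l + 1) ≤ HL D D' l) : ∃ g ∈ GK p q a b, ∃ ω ω' : Qb, ω ^ p = 1 ∧ ω' ^ p = 1 ∧
      (ω ≠ 1 ∨ ω' ≠ 1) ∧ g (D.lev l) = ω * D.lev l ∧ g (D'.lev l) = ω' * D'.lev l := by
  obtain ⟨g, hg, hg'⟩ := SetLike.not_le_iff_exists.1 h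
  rw [mem_HL] at hg hg'
  obtain ⟨ω, hω, h1⟩ := D.rot_lev hp hg.1 hg.2.1 (hg.2.2.2.1 _ le_rfl)
  obtain ⟨ω', hω', h2⟩ := D'.rot_lev hp (GK_comm p q a b ▸ hg.1) hg.2.2.1 (hg.2.2.2.2 _ le_rfl)
  refine ⟨g, hg.1, ω, ω', hω, hω', ?_, h1, h2⟩
  by_contra hc
  push Not at hc
  rw [hc.1, one_mul] at h1
  rw [hc.2, one_mul] at h2
  refine hg' ⟨hg.1, hg.2.1, hg.2.2.1, fun i hi hi' => ?_, fun i hi hi' => ?_⟩
  · rcases hi.eq_or_lt with rfl | hi
    exacts [h1, hg.2.2.2.1 i hi hi']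
  · rcases hi.eq_or_lt with rfl | hi
    exacts [h2, hg.2.2.2.2 i hi hi']

theorem deg (hW : WdStmt) : DegStmt := by
  classical
  intro p q a b Ca hp hpq hc ha hb hab
  obtain ⟨A, C, hA, hC, hW⟩ := hW p q Ca hp hpq hc
  obtain ⟨d, hd, H, hH, hS⟩ := exists_Sz a
  obtain ⟨α, hα⟩ : ∃ α : ℝ, α = ((d : ℝ) * H) ^ (Fix ℚ {a}).index := ⟨_, rfl⟩
  have hα0 : 0 < α := by rw [hα]; positivity
  obtain ⟨C₁, C₂, hC₁, hgap⟩ := gap hp hpq hc (lam := b / a) (div_ne_zero hb ha)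
    (fun h => hab ((div_eq_one_iff_eq ha).1 h).symm) (α * C) (by positivity)
  have hp0 : 0 < p := by omega
  have hq0 : 0 < q := by omega
  have hθ : (1 : ℝ) < (q : ℝ) / p :=
    (one_lt_div (by exact_mod_cast hp0)).2 (by exact_mod_cast hpq)
  obtain ⟨r, hr⟩ := pow_unbounded_of_one_lt (2 : ℝ) hθ
  obtain ⟨r', hr'⟩ := pow_unbounded_of_one_lt (q : ℝ) hθ
  obtain ⟨c₂, hc₂⟩ := pow_unbounded_of_one_lt C₂ hθ
  obtain ⟨c₁, hc₁⟩ := pow_unbounded_of_one_lt (C + C₁) (one_lt_two (α := ℝ))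
  refine ⟨A + Real.log (1 + Ca), fun j₁ e =>
    ⟨2 * p * (1 + (j₁ + 2 * e) + r * (c₁ + 2) + (2 * c₂ + 1 + 2 * (4 * r' + 1))), ?_⟩⟩
  intro F _ _ _ hF ψ hψ ha' hb' D D' h0 hj hn hn' hA'
  obtain ⟨n₂, hn₂⟩ : ∃ n₂, n₂ = D.n - max j₁ e := ⟨_, rfl⟩
  have hΛ := log_one_add_nonneg ((norm_nonneg _).trans ha')
  have low : ∀ l ≤ n₂, A ≤ lp (ψ (D.lev l)) ∧ ((q : ℝ) / p) ^ (n₂ - l) ≤ lp (ψ (D.lev l)) := by
    intro l hl
    have h1 := esc_low hp0 hpq ha' ((D.ht.map ψ).shift (i := j₁) (m := D.n - j₁) (by omega))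
      (D.n - l - j₁) (by omega)
    rw [add_zero, show j₁ + (D.n - l - j₁) = D.n - l by omega] at h1
    have h2 : 1 ≤ ((q : ℝ) / p) ^ (D.n - l - j₁) := one_le_pow₀ hθ.le
    have h3 : ((q : ℝ) / p) ^ (n₂ - l) ≤ ((q : ℝ) / p) ^ (D.n - l - j₁) :=
      pow_le_pow_right₀ hθ.le (by omega)
    have h4 : ((q : ℝ) / p) ^ (D.n - l - j₁) * A ≤ lp (ψ (D.lev l)) - Real.log (1 + Ca) :=
      (mul_le_mul_of_nonneg_left (by linarith) (by positivity)).trans h1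
    constructor <;> nlinarith
  have h00 : ∀ φ : Qb →+* F, φ (D'.lev 0) ^ q = φ (D.lev 0) ^ q := fun φ => by
    rw [← map_pow, ← map_pow, D.lev_zero, D'.lev_zero, h0]
  obtain ⟨ζ, hζ, hwd⟩ := hW F hF (ψ a) (ψ b) n₂ (fun k => ψ (D.lev k)) (fun k => ψ (D'.lev k))
    ha' hb' ((D.fwd_lev (by omega)).map ψ) ((D'.fwd_lev (by omega)).map ψ) (h00 ψ)
    (low n₂ le_rfl).1
  have hαa : 1 ≤ α * ‖ψ a‖ := by
    have := hψ a d H (Fix ℚ {a}) (index_Fix_ne_zero (Set.finite_singleton a))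
      (fun g hg => mem_Fix.1 hg a rfl) hS ha hd hH
    rwa [← hα, inv_le_iff_one_le_mul₀' hα0] at this
  have hψa : ψ a ≠ 0 := (map_ne_zero ψ).2 ha
  have hn0 : (0 : ℝ) ≤ D.n := Nat.cast_nonneg _
  have close : ∀ l, 1 ≤ l → l ≤ n₂ → ¬ HL D D' (l + 1) ≤ HL D D' l →
      (C + C₁) * (D.n + 2) ≤ lp (ψ (D.lev l)) →
      ‖ψ (b / a) - ζ (l - 1) ^ p‖ * Real.exp (lp (ψ (D.lev l))) ≤ α * C := by
    intro l l1 l2 hex hbig
    obtain ⟨g, hg, ω, ω', o1, o2, o3, o4, o5⟩ := rot hp0 D D' hex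
    let φ : Qb →+* F := ψ.comp g.toRingEquiv.toRingHom
    have hφ : ∀ x, φ x = ψ (g x) := fun _ => rfl
    have f1 := (D.fwd_lev (m := l) (by omega)).map φ
    have f2 := (D'.fwd_lev (m := l) (by omega)).map φ
    rw [hφ, GK_left hg] at f1
    rw [hφ, GK_right hg] at f2
    have hl : (l : ℝ) ≤ D.n := by exact_mod_cast (show l ≤ D.n by omega)
    have h1 := hwd l l1 l2 _ _ (ψ ω) (ψ ω') f1 f2 (h00 φ) (by rw [← map_pow, o1, map_one])
      (by rw [← map_pow, o2, map_one])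
      (o3.imp (fun h h' => h (ψ.injective (h'.trans (map_one ψ).symm)))
        fun h h' => h (ψ.injective (h'.trans (map_one ψ).symm)))
      (by rw [hφ, o4, map_mul]) (by rw [hφ, o5, map_mul])
      (le_trans (by nlinarith) hbig)
    rw [← norm_eq_exp_lp (lt_of_lt_of_le one_pos (hA.trans (low l l2).1))]
    have e : ψ b - ζ (l - 1) ^ p * ψ a = (ψ (b / a) - ζ (l - 1) ^ p) * ψ a := by
      rw [map_div₀]; field_simp
    rw [e, norm_mul] at h1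
    calc _ ≤ α * ‖ψ a‖ * (‖ψ (b / a) - ζ (l - 1) ^ p‖ * ‖ψ (D.lev l)‖) :=
        le_mul_of_one_le_left (by positivity) hαa
      _ = α * (‖ψ (b / a) - ζ (l - 1) ^ p‖ * ‖ψ a‖ * ‖ψ (D.lev l)‖) := by ring
      _ ≤ _ := mul_le_mul_of_nonneg_left h1 hα0.le
  have rel : ∀ i s, i + s ≤ n₂ → ζ (i + s) ^ q ^ s = ζ i ^ p ^ s := by
    intro i s
    induction s with
    | zero => simp
    | succ s ih =>
      intro h
      rw [pow_succ', pow_mul, ← add_assoc, hζ.2.1 (i + s) (by omega), ← pow_mul, mul_comm,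
        pow_mul, ih (by omega), ← pow_mul, ← pow_succ]
  obtain ⟨L, hL⟩ : ∃ L, L = Nat.log 2 (D.n + 2) := ⟨_, rfl⟩
  have hL1 : 1 ≤ L := by
    rw [hL]; exact Nat.log_pos (by norm_num) (by omega)
  have hL2 : 2 ^ L ≤ D.n + 2 := by rw [hL]; exact Nat.pow_log_le_self 2 (by omega)
  have hL3 : D.n + 2 < 2 ^ (L + 1) := by rw [hL]; exact Nat.lt_pow_succ_log_self (by norm_num) _
  let Γ₂ := (Icc 1 n₂).filter fun l => ¬ HL D D' (l + 1) ≤ HL D D' l ∧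
    (C + C₁) * (D.n + 2) ≤ lp (ψ (D.lev l))
  have card₂ : Γ₂.card ≤ 2 * c₂ + 1 + (L + 1) * (4 * r' + 1) := by
    rw [← card_image_of_injOn (f := fun l => n₂ - l) (fun l hl l' hl' he => by
      have h1 := mem_Icc.1 (mem_filter.1 (mem_coe.1 hl)).1
      have h2 := mem_Icc.1 (mem_filter.1 (mem_coe.1 hl')).1
      beta_reduce at he
      omega), hL]
    refine sparse _ _ _ _ (fun x hx => ?_) fun x hx x' hx' hlt => ?_
    · obtain ⟨l, -, rfl⟩ := mem_image.1 hx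
      omega
    obtain ⟨l, hl, rfl⟩ := mem_image.1 hx
    obtain ⟨i, hi, rfl⟩ := mem_image.1 hx'
    obtain ⟨l1, l2, l3⟩ := mem_filter.1 hl
    obtain ⟨i1, i2, i3⟩ := mem_filter.1 hi
    rw [mem_Icc] at l1 i1
    obtain ⟨s, rfl⟩ := Nat.exists_eq_add_of_le (show i ≤ l by omega)
    have hb : C₁ * (D.n + 2) ≤ (C + C₁) * (D.n + 2) := by nlinarith
    have h1 := hgap F hF ψ hψ D.n i s (ζ (i - 1) ^ p) (ζ (i + s - 1) ^ p) _ _
      (((q : ℝ) / p) ^ (n₂ - (i + s))) (by omega) (by omega)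
      (by
        have := hζ.1 (i - 1) (by omega)
        rw [show i - 1 + 1 = i by omega] at this
        rw [← pow_mul, mul_comm, pow_mul, this, one_pow])
      (by rw [norm_pow, norm_root (pow_pos hq0 _) (hζ.1 (i + s - 1) (by omega)), one_pow])
      (by
        rw [← pow_mul, mul_comm, pow_mul, show i + s - 1 = i - 1 + s by omega,
          rel (i - 1) s (by omega), ← pow_mul, mul_comm, pow_mul])
      (close i i1.1 i1.2 i2 i3) (close _ l1.1 l1.2 l2 l3) (hb.trans i3) (hb.trans l3)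
      ((pow_le_pow_right₀ hθ.le (by omega)).trans (low i i1.2).2) (low _ l1.2).2
    have h2 : C₂ * (q : ℝ) ^ s ≤ ((q : ℝ) / p) ^ (c₂ + r' * s) := by
      rw [pow_add, pow_mul]
      exact mul_le_mul hc₂.le (pow_le_pow_left₀ (by positivity) hr'.le s) (by positivity)
        (by positivity)
    rw [show n₂ - i - (n₂ - (i + s)) = s by omega]
    exact (pow_le_pow_iff_right₀ hθ).1 (h1.trans h2)
  let Γ := insert 0 (Ioc n₂ (D.n + e) ∪ (Ioc (n₂ - r * (c₁ + L + 1)) n₂ ∪ Γ₂))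
  have hΓ : ∀ l, l ∉ Γ → HL D D' (l + 1) ≤ HL D D' l := by
    intro l hl
    simp only [Γ, Γ₂, mem_insert, mem_union, mem_Ioc, mem_filter, mem_Icc, not_or] at hl
    obtain ⟨g0, g1, g2, g3⟩ := hl
    by_cases h1 : n₂ < l
    · rw [HL_of_lt D D' (l := l + 1) (by omega) (by omega),
        HL_of_lt D D' (l := l) (by omega) (by omega)]
    by_contra hex
    refine g3 ⟨⟨by omega, by omega⟩, hex, le_trans ?_ (low l (by omega)).2⟩
    have h2 : r * (c₁ + L + 1) ≤ n₂ - l := by omega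
    refine le_trans ?_ (pow_le_pow_right₀ hθ.le h2)
    rw [pow_mul]
    refine le_trans ?_ (pow_le_pow_left₀ (by norm_num) hr.le _)
    rw [add_assoc, pow_add]
    refine mul_le_mul hc₁.le ?_ (by positivity) (by positivity)
    exact_mod_cast hL3.le
  have hcard : Γ.card ≤
      (1 + (j₁ + 2 * e) + r * (c₁ + 2) + (2 * c₂ + 1 + 2 * (4 * r' + 1))) * L := by
    have h1 := card_insert_le 0 (Ioc n₂ (D.n + e) ∪ (Ioc (n₂ - r * (c₁ + L + 1)) n₂ ∪ Γ₂))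
    have h2 := card_union_le (Ioc n₂ (D.n + e)) (Ioc (n₂ - r * (c₁ + L + 1)) n₂ ∪ Γ₂)
    have h3 := card_union_le (Ioc (n₂ - r * (c₁ + L + 1)) n₂) Γ₂
    rw [Nat.card_Ioc] at h2 h3
    have h4 : Γ.card ≤ 1 + (j₁ + 2 * e) + r * (c₁ + L + 1) +
        (2 * c₂ + 1 + (L + 1) * (4 * r' + 1)) := by
      change Γ.card ≤ _ at h1
      omega
    refine h4.trans ?_
    obtain ⟨L, rfl⟩ := Nat.exists_eq_add_of_le hL1
    nlinarith [Nat.zero_le (j₁ * L), Nat.zero_le (e * L), Nat.zero_le (r * c₁ * L),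
      Nat.zero_le (r * L), Nat.zero_le (c₂ * L), Nat.zero_le (r' * L)]
  refine (HL_index_le D D' hp0 Γ hΓ).trans (Nat.mul_le_mul_left _ ?_)
  calc (p ^ 2) ^ Γ.card ≤ ((2 ^ p) ^ 2) ^ Γ.card :=
      Nat.pow_le_pow_left (Nat.pow_le_pow_left Nat.lt_two_pow_self.le 2) _
    _ ≤ ((2 ^ p) ^ 2) ^ (_ * L) := Nat.pow_le_pow_right (by positivity) hcard
    _ = (2 ^ L) ^ _ := by rw [← pow_mul, ← pow_mul, ← pow_mul]; congr 1; ring
    _ ≤ _ := Nat.pow_le_pow_left hL2 _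

end Pool.Agent.MP_09973c_nt.H21
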